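import Mathlib
import Pool.Agent.K3h12.CB.Main

/-!
# Divisibility of the self-convolution of `binom(6k,3k) binom(3k,k)` (MP_cbedb1_nt, Q1)

For `a k = binom(6k,3k) binom(3k,k)` and `S n = ∑_{j=0}^n a j * a (n-j)`, the integer
`8 (2n-1) binom(3n,n)` divides `S n`, for every positive integer `n`.

Proof: for an odd prime `p` the `p`-adic valuation of `(2n-1) binom(3n,n)` is at most that of every
term `a j * a (n-j)` (Legendre's formula; for `p = 3` a telescoping argument is needed).  The
`2`-adic valuation of `a k` is twice the sum `w k` of the binary digits of `k`, and that of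
`binom(3n,n)` is `2 w n - w (3n)`, with `w (3n) ≥ 2`; all terms are divisible by `4 ^ (w n)`, and since
the terms `j` and `n - j` are equal, the sum is divisible by `2 * 4 ^ (w n)`.
-/

set_option autoImplicit false

namespace Pool.Agent.Results.MP_cbedb1_nt.FullDivisibility

/-- `a_k = binom(6k,3k) binom(3k,k)`, as an integer. -/
def a (k : ℕ) : ℤ := (Nat.choose (6 * k) (3 * k) : ℤ) * (Nat.choose (3 * k) k : ℤ)

/-- `S_n = ∑_{j=0}^n a_j a_{n-j}`, as an integer. -/
def S (n : ℕ) : ℤ := ∑ j ∈ Finset.range (n + 1), a j * a (n - j)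

/-- For every positive integer `n`, the integer `8 (2n-1) binom(3n,n)` divides `S_n`. -/
theorem result (n : ℕ) (hn : 1 ≤ n) :
    8 * (2 * (n : ℤ) - 1) * (Nat.choose (3 * n) n : ℤ) ∣ S n := by
  have h := Pool.Agent.K3h12.CB.main n hn
  have h1 : ((Pool.Agent.K3h12.CB.S n : ℕ) : ℤ) = S n := by
    unfold Pool.Agent.K3h12.CB.S S Pool.Agent.K3h12.CB.a a
    push_cast
    rfl
  have h2 : ((8 * (2 * n - 1) * (3 * n).choose n : ℕ) : ℤ) =
      8 * (2 * (n : ℤ) - 1) * (Nat.choose (3 * n) n : ℤ) := by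
    have h3 : ((2 * n - 1 : ℕ) : ℤ) = 2 * (n : ℤ) - 1 := by
      rw [Nat.cast_sub (by omega)]
      push_cast
      rfl
    push_cast [h3]
    rfl
  rw [← h1, ← h2]
  exact_mod_cast h

end Pool.Agent.Results.MP_cbedb1_nt.FullDivisibility
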